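import Mathlib

/-!
An infinite-dimensional uniformly convex Banach space `E` and a metric space `M` with four points
which embeds almost isometrically, but not isometrically, into `E`.

`E` is the `ℓ²`-sum of the planes with the norms `N_n(x)² = |x|₂² + θ_n² |x|_∞²`, where `θ_n`
increases strictly to `1`. In `E` one has `‖u+v‖² + ‖u-v‖² < (8/3) (‖u‖² + ‖v‖²)` unless
`u = v = 0`, with the optimal constant. `M` is a quadrilateral with sides `1` and both diagonals
`κ`, `κ² = 8/3`.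
-/

set_option autoImplicit false

open scoped ENNReal

namespace Pool.Agent.Results.MP_6d826c_an.FourPoints

/-- `M` embeds isometrically into `E`. -/
def Embeds (M E : Type) [MetricSpace M] [NormedAddCommGroup E] : Prop :=
  ∃ f : M → E, ∀ a b, ‖f a - f b‖ = dist a b

/-- `M` embeds almost isometrically into `E`. -/
def AlmostEmbeds (M E : Type) [MetricSpace M] [NormedAddCommGroup E] : Prop :=
  ∀ ε : ℝ, 0 < ε → ∃ f : M → E, ∀ a b, dist a b ≤ ‖f a - f b‖ ∧ ‖f a - f b‖ ≤ (1 + ε) * dist a b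

/-- Uniform convexity. -/
def UniformlyConvex (E : Type) [NormedAddCommGroup E] [NormedSpace ℝ E] : Prop :=
  ∀ ε : ℝ, 0 < ε → ε ≤ 2 → ∃ δ : ℝ, 0 < δ ∧ ∀ x y : E, ‖x‖ ≤ 1 → ‖y‖ ≤ 1 → ε ≤ ‖x - y‖ →
    ‖(1 / 2 : ℝ) • (x + y)‖ ≤ 1 - δ

/-- `M` is a metric space with four points which embeds almost isometrically, but not
isometrically, into the infinite-dimensional uniformly convex Banach space `E`. -/
def Separates (M E : Type) [MetricSpace M] [NormedAddCommGroup E] [NormedSpace ℝ E] : Prop :=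
  (CompleteSpace E ∧ ¬ FiniteDimensional ℝ E ∧ UniformlyConvex E) ∧
    Nat.card M = 4 ∧ AlmostEmbeds M E ∧ ¬ Embeds M E

/-! ### The space -/

/-- The parameters. -/
noncomputable def th (n : ℕ) : ℝ := ((n : ℝ) + 1) / ((n : ℝ) + 2)

lemma th_pos (n : ℕ) : 0 < th n := by unfold th; positivity

lemma th_lt (n : ℕ) : th n < 1 := by
  unfold th
  rw [div_lt_one (by positivity)]
  linarith

lemma th_sq_lt (n : ℕ) : th n ^ 2 < 1 := by
  have h1 := th_pos n
  have h2 := th_lt n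
  nlinarith

/-- The ambient plane. -/
abbrev V : Type := WithLp 2 (EuclideanSpace ℝ (Fin 2) × (Fin 2 → ℝ))

/-- The ambient space. -/
abbrev L : Type := lp (fun _ : ℕ => V) 2

/-- The space, as a subspace of the ambient space. -/
noncomputable def XX : Submodule ℝ L where
  carrier := {z | ∀ n i, (z n).snd i = th n * (z n).fst i}
  add_mem' := by
    intro x y hx hy n i
    have h1 := hx n i
    have h2 := hy n i
    simp only [lp.coeFn_add, Pi.add_apply, WithLp.add_snd, WithLp.add_fst, PiLp.add_apply] at *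
    rw [h1, h2]
    ring
  zero_mem' := by
    intro n i
    simp
  smul_mem' := by
    intro c x hx n i
    have h1 := hx n i
    simp only [lp.coeFn_smul, Pi.smul_apply, WithLp.smul_snd, WithLp.smul_fst, PiLp.smul_apply,
      smul_eq_mul] at *
    rw [h1]
    ring

lemma norm_sq_eq (z : L) : ‖z‖ ^ 2 = ∑' n, ‖z n‖ ^ 2 := by
  have h := lp.norm_rpow_eq_tsum (p := 2) (by simp) z
  simpa using h

lemma summable_sq (z : L) : Summable fun n => ‖z n‖ ^ 2 := by
  have h := (lp.memℓp z).summable (by simp : 0 < (2 : ℝ≥0∞).toReal)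
  simpa using h

lemma sup_sq_le (w : Fin 2 → ℝ) : ‖w‖ ^ 2 ≤ w 0 ^ 2 + w 1 ^ 2 := by
  have h : ‖w‖ ≤ √(w 0 ^ 2 + w 1 ^ 2) := by
    rw [pi_norm_le_iff_of_nonneg (Real.sqrt_nonneg _)]
    intro i
    rw [Real.norm_eq_abs]
    apply Real.abs_le_sqrt
    fin_cases i
    · simp only [Fin.zero_eta]; nlinarith [sq_nonneg (w 1)]
    · simp only [Fin.mk_one]; nlinarith [sq_nonneg (w 0)]
  have h2 := Real.sq_sqrt (by positivity : 0 ≤ w 0 ^ 2 + w 1 ^ 2)
  nlinarith [norm_nonneg w, Real.sqrt_nonneg (w 0 ^ 2 + w 1 ^ 2)]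

lemma le_sup_sq (w : Fin 2 → ℝ) : w 0 ^ 2 + w 1 ^ 2 ≤ 2 * ‖w‖ ^ 2 := by
  have h0 := norm_le_pi_norm w 0
  have h1 := norm_le_pi_norm w 1
  rw [Real.norm_eq_abs] at h0 h1
  have h2 := sq_abs (w 0)
  have h3 := sq_abs (w 1)
  nlinarith [abs_nonneg (w 0), abs_nonneg (w 1), norm_nonneg w]

/-- The square of the Euclidean part. -/
noncomputable def eu (z : L) (n : ℕ) : ℝ := ‖(z n).fst‖ ^ 2

lemma eu_nonneg (z : L) (n : ℕ) : 0 ≤ eu z n := by unfold eu; positivity

lemma norm_coord (z : L) (n : ℕ) : ‖z n‖ ^ 2 = eu z n + ‖(z n).snd‖ ^ 2 :=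
  WithLp.prod_norm_sq_eq_of_L2 _

lemma snd_bounds {z : L} (hz : z ∈ XX) (n : ℕ) :
    ‖(z n).snd‖ ^ 2 ≤ th n ^ 2 * eu z n ∧ th n ^ 2 * eu z n ≤ 2 * ‖(z n).snd‖ ^ 2 := by
  have h1 : th n ^ 2 * eu z n = (z n).snd 0 ^ 2 + (z n).snd 1 ^ 2 := by
    unfold eu
    rw [hz n 0, hz n 1, EuclideanSpace.norm_sq_eq, Fin.sum_univ_two, Real.norm_eq_abs,
      Real.norm_eq_abs, sq_abs, sq_abs]
    ring
  rw [h1]
  exact ⟨sup_sq_le _, le_sup_sq _⟩

lemma eu_parallelogram (x y : L) (n : ℕ) :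
    eu (x + y) n + eu (x - y) n = 2 * (eu x n + eu y n) := by
  unfold eu
  have h := parallelogram_law_with_norm ℝ (x n).fst (y n).fst
  simp only [lp.coeFn_add, lp.coeFn_sub, Pi.add_apply, Pi.sub_apply, WithLp.add_fst,
    WithLp.sub_fst]
  nlinarith

/-- The strict inequality. -/
lemma strict {u v : L} (hu : u ∈ XX) (hv : v ∈ XX) (h : u ≠ 0) :
    ‖u + v‖ ^ 2 + ‖u - v‖ ^ 2 < 8 / 3 * (‖u‖ ^ 2 + ‖v‖ ^ 2) := by
  rw [norm_sq_eq, norm_sq_eq, norm_sq_eq, norm_sq_eq,
    ← (summable_sq (u + v)).tsum_add (summable_sq (u - v)),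
    ← (summable_sq u).tsum_add (summable_sq v), ← tsum_mul_left]
  have key : ∀ n, ‖(u + v : L) n‖ ^ 2 + ‖(u - v : L) n‖ ^ 2 + 2 / 3 * (1 - th n ^ 2) *
      (eu u n + eu v n) ≤ 8 / 3 * (‖u n‖ ^ 2 + ‖v n‖ ^ 2) := by
    intro n
    have h1 := eu_parallelogram u v n
    have h2 := (snd_bounds (XX.add_mem hu hv) n).1
    have h3 := (snd_bounds (XX.sub_mem hu hv) n).1
    have h4 := (snd_bounds hu n).2
    have h5 := (snd_bounds hv n).2
    rw [norm_coord, norm_coord, norm_coord, norm_coord]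
    nlinarith
  obtain ⟨n₀, hn₀⟩ : ∃ n, u n ≠ 0 := by
    by_contra hcon
    push Not at hcon
    exact h (lp.ext (funext hcon))
  have hpos : 0 < eu u n₀ := by
    refine lt_of_le_of_ne (eu_nonneg u n₀) fun h0 => hn₀ ?_
    have h1 := (snd_bounds hu n₀).1
    rw [← h0, mul_zero] at h1
    have h2 := norm_coord u n₀
    have h3 : ‖u n₀‖ ^ 2 = 0 := le_antisymm (by rw [h2, ← h0]; linarith) (by positivity)
    exact norm_eq_zero.1 (pow_eq_zero_iff two_ne_zero |>.1 h3)
  refine Summable.tsum_lt_tsum (i := n₀) (fun n => ?_) ?_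
    ((summable_sq (u + v)).add (summable_sq (u - v)))
    (((summable_sq u).add (summable_sq v)).mul_left _)
  · have h1 := key n
    have h2 := th_sq_lt n
    have h3 := eu_nonneg u n
    have h4 := eu_nonneg v n
    have h5 : 0 ≤ 2 / 3 * (1 - th n ^ 2) * (eu u n + eu v n) := by
      have : 0 ≤ 1 - th n ^ 2 := by linarith
      positivity
    linarith
  · have h1 := key n₀
    have h2 := th_sq_lt n₀
    have h4 := eu_nonneg v n₀
    have h5 : 0 < 2 / 3 * (1 - th n₀ ^ 2) * (eu u n₀ + eu v n₀) := by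
      have : 0 < 1 - th n₀ ^ 2 := by linarith
      have : 0 < eu u n₀ + eu v n₀ := by linarith
      positivity
    linarith

/-- Quantitative uniform convexity. -/
lemma uc {x y : L} (hx : x ∈ XX) (hy : y ∈ XX) :
    ‖x + y‖ ^ 2 + ‖x - y‖ ^ 2 / 2 ≤ 2 * (‖x‖ ^ 2 + ‖y‖ ^ 2) := by
  have key : ∀ n, ‖(x + y : L) n‖ ^ 2 + ‖(x - y : L) n‖ ^ 2 / 2 ≤
      2 * (‖x n‖ ^ 2 + ‖y n‖ ^ 2) := by
    intro n
    have h1 := eu_parallelogram x y n
    have h3 := (snd_bounds (XX.sub_mem hx hy) n).1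
    have h6 : ‖((x + y : L) n).snd‖ ≤ ‖(x n).snd‖ + ‖(y n).snd‖ := by
      simp only [lp.coeFn_add, Pi.add_apply, WithLp.add_snd]
      exact norm_add_le _ _
    have h7 : ‖((x + y : L) n).snd‖ ^ 2 ≤ 2 * (‖(x n).snd‖ ^ 2 + ‖(y n).snd‖ ^ 2) := by
      nlinarith [norm_nonneg ((x + y : L) n).snd, sq_nonneg (‖(x n).snd‖ - ‖(y n).snd‖)]
    have h8 := th_sq_lt n
    have h9 := eu_nonneg (x - y) n
    rw [norm_coord, norm_coord, norm_coord, norm_coord]
    nlinarith
  have h1 : Summable fun n => ‖(x + y : L) n‖ ^ 2 + ‖(x - y : L) n‖ ^ 2 / 2 :=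
    (summable_sq (x + y)).add ((summable_sq (x - y)).div_const 2)
  have h2 := Summable.tsum_le_tsum key h1 (((summable_sq x).add (summable_sq y)).mul_left 2)
  rw [(summable_sq (x + y)).tsum_add ((summable_sq (x - y)).div_const 2), tsum_div_const,
    tsum_mul_left, (summable_sq x).tsum_add (summable_sq y)] at h2
  rw [norm_sq_eq, norm_sq_eq, norm_sq_eq, norm_sq_eq]
  exact h2

lemma uniformlyConvex : UniformlyConvex XX := by
  intro ε hε hε2
  refine ⟨ε ^ 2 / 16, by positivity, fun x y hx hy hxy => ?_⟩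
  have h1 := uc x.2 y.2
  have h2 : ‖(x : L) + y‖ = ‖x + y‖ := rfl
  have h3 : ‖(x : L) - y‖ = ‖x - y‖ := rfl
  have h4 : ‖(x : L)‖ = ‖x‖ := rfl
  have h5 : ‖(y : L)‖ = ‖y‖ := rfl
  rw [h2, h3, h4, h5] at h1
  have h6 : ‖(1 / 2 : ℝ) • (x + y)‖ = ‖x + y‖ / 2 := by
    rw [norm_smul, Real.norm_eq_abs, abs_of_pos (by norm_num)]
    ring
  rw [h6]
  have h7 : ‖x‖ ^ 2 ≤ 1 := by nlinarith [norm_nonneg x]
  have h8 : ‖y‖ ^ 2 ≤ 1 := by nlinarith [norm_nonneg y]
  have h9 : ε ^ 2 ≤ ‖x - y‖ ^ 2 := by nlinarith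
  have h10 : (‖x + y‖ / 2) ^ 2 ≤ (1 - ε ^ 2 / 16) ^ 2 := by nlinarith [sq_nonneg (ε ^ 2)]
  exact le_of_sq_le_sq h10 (by nlinarith)

instance : CompleteSpace XX := by
  have hclosed : IsClosed (XX : Set L) := by
    have h : (XX : Set L) = ⋂ (n : ℕ) (i : Fin 2), {z : L | (z n).snd i = th n * (z n).fst i} := by
      ext z
      simp only [Set.mem_iInter]
      rfl
    rw [h]
    refine isClosed_iInter fun n => isClosed_iInter fun i => ?_
    have hc : Continuous fun z : L => z n := (lp.evalCLM ℝ (fun _ : ℕ => V) 2 n).continuous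
    have h1 : Continuous fun v : V => v.snd i := by fun_prop
    have h2 : Continuous fun v : V => th n * v.fst i := by fun_prop
    exact isClosed_eq (h1.comp hc) (h2.comp hc)
  exact hclosed.completeSpace_coe

/-! ### Vectors in one coordinate -/

/-- The vector with coordinates `(α + β, α - β)` in the plane `n`. -/
noncomputable def wv (n : ℕ) (α β : ℝ) : V :=
  WithLp.toLp 2 (WithLp.toLp 2 ![α + β, α - β], th n • ![α + β, α - β])

lemma wv_sub (n : ℕ) (α β α' β' : ℝ) : wv n α β - wv n α' β' = wv n (α - α') (β - β') := by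
  apply WithLp.ofLp_injective
  refine Prod.ext ?_ ?_
  · ext i
    fin_cases i <;> simp [wv] <;> ring
  · funext i
    fin_cases i <;> simp [wv] <;> ring

lemma norm_wv (n : ℕ) (α β : ℝ) :
    ‖wv n α β‖ ^ 2 = 2 * (α ^ 2 + β ^ 2) + th n ^ 2 * (|α| + |β|) ^ 2 := by
  rw [WithLp.prod_norm_sq_eq_of_L2]
  have h1 : ‖(wv n α β).fst‖ ^ 2 = 2 * (α ^ 2 + β ^ 2) := by
    rw [EuclideanSpace.norm_sq_eq, Fin.sum_univ_two]
    simp only [wv, Real.norm_eq_abs, sq_abs]
    simp
    ring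
  have h2 : ‖(wv n α β).snd‖ = th n * (|α| + |β|) := by
    change ‖th n • (![α + β, α - β] : Fin 2 → ℝ)‖ = _
    rw [norm_smul, Real.norm_eq_abs, abs_of_pos (th_pos n)]
    congr 1
    apply le_antisymm
    · rw [pi_norm_le_iff_of_nonneg (by positivity)]
      intro i
      fin_cases i
      · simpa using abs_add_le α β
      · simpa using abs_sub α β
    · have h0 := norm_le_pi_norm (![α + β, α - β] : Fin 2 → ℝ) 0
      have h1 := norm_le_pi_norm (![α + β, α - β] : Fin 2 → ℝ) 1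
      simp only [Matrix.cons_val_zero, Matrix.cons_val_one, Real.norm_eq_abs] at h0 h1
      rcases abs_cases α with ⟨ha, _⟩ | ⟨ha, _⟩ <;> rcases abs_cases β with ⟨hb, _⟩ | ⟨hb, _⟩ <;>
        rw [ha, hb] <;>
        linarith [le_abs_self (α + β), neg_abs_le (α + β), le_abs_self (α - β),
          neg_abs_le (α - β)]
  rw [h1, h2]
  ring

/-- The corresponding element of the space. -/
noncomputable def W (n : ℕ) (α β : ℝ) : XX :=
  ⟨lp.single (E := fun _ : ℕ => V) 2 n (wv n α β), by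
    intro m i
    by_cases h : m = n
    · subst h
      rw [lp.single_apply_self]
      fin_cases i <;> simp [wv]
    · rw [lp.single_apply_ne 2 n _ h]
      simp⟩

lemma W_sub (n : ℕ) (α β α' β' : ℝ) : W n α β - W n α' β' = W n (α - α') (β - β') := by
  apply Subtype.ext
  change lp.single (E := fun _ : ℕ => V) 2 n (wv n α β) - lp.single (E := fun _ : ℕ => V) 2 n (wv n α' β') =
    lp.single (E := fun _ : ℕ => V) 2 n (wv n (α - α') (β - β'))
  rw [← lp.single_sub, wv_sub]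

lemma norm_W (n : ℕ) (α β : ℝ) :
    ‖W n α β‖ ^ 2 = 2 * (α ^ 2 + β ^ 2) + th n ^ 2 * (|α| + |β|) ^ 2 := by
  have : ‖W n α β‖ = ‖wv n α β‖ := lp.norm_single (by norm_num) n _
  rw [this, norm_wv]

lemma infinite_dimensional : ¬ FiniteDimensional ℝ XX := by
  intro h
  have hli : LinearIndependent ℝ (fun n : ℕ => W n 1 0) := by
    rw [linearIndependent_iff']
    intro s g hg i hi
    let φ : XX →ₗ[ℝ] ℝ :=
      { toFun := fun z => ((z : L) i).fst 0
        map_add' := fun x y => by simp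
        map_smul' := fun c x => by simp }
    have hφ : ∀ n, φ (W n 1 0) = if n = i then 1 else 0 := by
      intro n
      change ((lp.single (E := fun _ : ℕ => V) 2 n (wv n 1 0) : L) i).fst 0 = _
      by_cases hn : n = i
      · subst hn
        rw [lp.single_apply_self, if_pos rfl]
        simp [wv]
      · rw [lp.single_apply_ne 2 n _ (Ne.symm hn), if_neg hn]
        simp
    have h1 := congrArg φ hg
    rw [map_sum, map_zero, Finset.sum_eq_single i] at h1
    · rw [map_smul, hφ, if_pos rfl] at h1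
      simpa using h1
    · intro n _ hn
      rw [map_smul, hφ, if_neg hn, smul_zero]
    · intro hcon
      exact absurd hi hcon
  have := hli.finite
  exact not_finite ℕ

/-! ### The metric space -/

/-- The length of the diagonals. -/
noncomputable def kap : ℝ := √(8 / 3)

lemma kap_sq : kap ^ 2 = 8 / 3 := Real.sq_sqrt (by norm_num)

lemma kap_pos : 0 < kap := Real.sqrt_pos.2 (by norm_num)

lemma one_le_kap : 1 ≤ kap := by nlinarith [kap_sq, kap_pos]

lemma kap_le_two : kap ≤ 2 := by nlinarith [kap_sq, kap_pos]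

/-- The vertices of the quadrilateral. -/
structure Q4 where
  /-- first coordinate -/
  x : Bool
  /-- second coordinate -/
  y : Bool

/-- The distance. -/
noncomputable def dq (a b : Q4) : ℝ :=
  if a.x = b.x then (if a.y = b.y then 0 else 1) else (if a.y = b.y then 1 else kap)

noncomputable instance : MetricSpace Q4 where
  dist := dq
  dist_self a := by simp [dq]
  dist_comm a b := by simp only [dq, eq_comm]
  dist_triangle := by
    have h1 := one_le_kap
    have h2 := kap_le_two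
    rintro ⟨a, a'⟩ ⟨b, b'⟩ ⟨c, c'⟩
    cases a <;> cases a' <;> cases b <;> cases b' <;> cases c <;> cases c' <;>
      simp [dq] <;> linarith
  eq_of_dist_eq_zero := by
    have h1 := kap_pos
    rintro ⟨a, a'⟩ ⟨b, b'⟩ h
    change dq ⟨a, a'⟩ ⟨b, b'⟩ = 0 at h
    cases a <;> cases a' <;> cases b <;> cases b' <;> simp [dq] at h ⊢ <;> linarith

lemma dist_eq (a b : Q4) : dist a b = dq a b := rfl

/-- A space with the strict inequality does not contain the quadrilateral. -/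
lemma not_embeds_of {E : Type} [NormedAddCommGroup E] [NormedSpace ℝ E]
    (hE : ∀ p q : E, p ≠ 0 → ‖p + q‖ ^ 2 + ‖p - q‖ ^ 2 < 8 / 3 * (‖p‖ ^ 2 + ‖q‖ ^ 2)) :
    ¬ Embeds Q4 E := by
  rintro ⟨f, hf⟩
  simp only [dist_eq] at hf
  have key : ∀ o a b c : E, ‖a - o‖ = 1 → ‖b - o‖ = 1 → ‖c - o‖ = kap → ‖a - b‖ = kap →
      ‖c - a‖ = 1 → ‖c - b‖ = 1 → False := by
    intro o a b c ha hb hc hab hca hcb
    have hp : ‖(1 / 2 : ℝ) • ((a - o) + (c - b))‖ ≤ 1 := by
      rw [norm_smul, Real.norm_eq_abs, abs_of_pos (by norm_num)]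
      have := norm_add_le (a - o) (c - b)
      linarith
    have hq : ‖(1 / 2 : ℝ) • ((b - o) + (c - a))‖ ≤ 1 := by
      rw [norm_smul, Real.norm_eq_abs, abs_of_pos (by norm_num)]
      have := norm_add_le (b - o) (c - a)
      linarith
    have h1 : (1 / 2 : ℝ) • ((a - o) + (c - b)) + (1 / 2 : ℝ) • ((b - o) + (c - a)) = c - o := by
      rw [← smul_add]
      have : (a - o) + (c - b) + ((b - o) + (c - a)) = (2 : ℝ) • (c - o) := by rw [two_smul]; abel
      rw [this, smul_smul]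
      norm_num
    have h2 : (1 / 2 : ℝ) • ((a - o) + (c - b)) - (1 / 2 : ℝ) • ((b - o) + (c - a)) = a - b := by
      rw [← smul_sub]
      have : (a - o) + (c - b) - ((b - o) + (c - a)) = (2 : ℝ) • (a - b) := by rw [two_smul]; abel
      rw [this, smul_smul]
      norm_num
    have hne : (1 / 2 : ℝ) • ((a - o) + (c - b)) ≠ 0 := by
      intro h0
      rw [h0, zero_add] at h1
      rw [h1, hc] at hq
      nlinarith [kap_sq, kap_pos]
    have h3 := hE _ ((1 / 2 : ℝ) • ((b - o) + (c - a))) hne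
    rw [h1, h2, hc, hab, kap_sq] at h3
    nlinarith [norm_nonneg ((1 / 2 : ℝ) • ((a - o) + (c - b))),
      norm_nonneg ((1 / 2 : ℝ) • ((b - o) + (c - a)))]
  refine key (f ⟨false, false⟩) (f ⟨true, false⟩) (f ⟨false, true⟩) (f ⟨true, true⟩) ?_ ?_ ?_ ?_ ?_ ?_
    <;> rw [hf] <;> simp [dq]

lemma not_embeds : ¬ Embeds Q4 XX :=
  not_embeds_of fun p q hp => strict p.2 q.2 (fun h => hp (Subtype.ext h))

/-- Coordinates of the vertices. -/
def e (b : Bool) : ℝ := if b then 1 else 0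

lemma e_cases (a b : Bool) : (a = b ∧ e a - e b = 0) ∨
    (a ≠ b ∧ (e a - e b) ^ 2 = 1 ∧ |e a - e b| = 1) := by
  cases a <;> cases b <;> simp [e]

lemma almost_embeds : AlmostEmbeds Q4 XX := by
  intro ε hε
  obtain ⟨n, hn⟩ := exists_nat_gt (1 / ε)
  have hn2 : 1 / ((n : ℝ) + 2) < ε := by
    rw [div_lt_iff₀ (by positivity)]
    rw [div_lt_iff₀ hε] at hn
    nlinarith
  have hth : 1 - th n = 1 / ((n : ℝ) + 2) := by
    unfold th
    field_simp
    ring
  have hth0 := th_pos n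
  have hth1 := th_lt n
  set t := th n with ht
  have hs0 : 0 < 2 / 3 / (1 + t ^ 2) := by positivity
  let s : ℝ := √(2 / 3 / (1 + t ^ 2))
  have hs : s ^ 2 = 2 / 3 / (1 + t ^ 2) := Real.sq_sqrt hs0.le
  have hs' : s ^ 2 * (1 + t ^ 2) = 2 / 3 := by
    rw [hs]
    field_simp
  have hspos : 0 < s := Real.sqrt_pos.2 hs0
  let f : Q4 → XX := fun a => W n (s * e a.x) (s * e a.y)
  refine ⟨f, fun a b => ?_⟩
  have hfab : ‖f a - f b‖ ^ 2 = s ^ 2 * (2 * ((e a.x - e b.x) ^ 2 + (e a.y - e b.y) ^ 2) +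
      t ^ 2 * (|e a.x - e b.x| + |e a.y - e b.y|) ^ 2) := by
    have h1 : f a - f b = W n (s * (e a.x - e b.x)) (s * (e a.y - e b.y)) := by
      simp only [f]
      rw [W_sub]
      congr 1 <;> ring
    rw [h1, norm_W, abs_mul, abs_mul, abs_of_pos hspos]
    ring
  have hside : s ^ 2 * (2 + t ^ 2) ≤ (1 + ε) ^ 2 ∧ 1 ≤ s ^ 2 * (2 + t ^ 2) := by
    have h1 : s ^ 2 * (2 + t ^ 2) = 2 / 3 + s ^ 2 := by linear_combination hs'
    have h2 : s ^ 2 = 1 / 3 + (1 - t ^ 2) / (3 * (1 + t ^ 2)) := by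
      rw [hs]
      field_simp
      ring
    have h3 : 0 ≤ (1 - t ^ 2) / (3 * (1 + t ^ 2)) := by
      have : 0 ≤ 1 - t ^ 2 := by nlinarith
      positivity
    have h4 : (1 - t ^ 2) / (3 * (1 + t ^ 2)) ≤ 2 * ε := by
      rw [div_le_iff₀ (by positivity)]
      have h5 : 1 - t ^ 2 ≤ 2 * ε := by nlinarith
      nlinarith [sq_nonneg t]
    rw [h1, h2]
    constructor
    · nlinarith
    · linarith
  have hdiag : s ^ 2 * (2 * 2 + t ^ 2 * 2 ^ 2) = 8 / 3 := by linear_combination 4 * hs'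
  have main : dq a b ^ 2 ≤ ‖f a - f b‖ ^ 2 ∧ ‖f a - f b‖ ^ 2 ≤ ((1 + ε) * dq a b) ^ 2 := by
    rw [hfab]
    have hone : (1 : ℝ) ≤ (1 + ε) ^ 2 := by nlinarith
    have hk := kap_sq
    rcases e_cases a.x b.x with ⟨hx, hx0⟩ | ⟨hx, hx0, hx1⟩ <;>
      rcases e_cases a.y b.y with ⟨hy, hy0⟩ | ⟨hy, hy0, hy1⟩
    · rw [hx0, hy0]
      simp [dq, hx, hy]
    · rw [hx0, hy0, hy1]
      simp only [dq, if_pos hx, if_neg hy]
      simp only [abs_zero, zero_add]
      norm_num
      exact ⟨hside.2, hside.1⟩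
    · rw [hx0, hy0, hx1]
      simp only [dq, if_neg hx, if_pos hy]
      simp only [abs_zero, add_zero]
      norm_num
      exact ⟨hside.2, hside.1⟩
    · rw [hx0, hy0, hx1, hy1]
      simp only [dq, if_neg hx, if_neg hy]
      rw [mul_pow, hk]
      have e1 : s ^ 2 * (2 * (1 + 1) + t ^ 2 * (1 + 1) ^ 2) = 8 / 3 := by
        rw [← hdiag]
        ring
      rw [e1]
      constructor
      · exact le_rfl
      · nlinarith
  have hd0 : 0 ≤ dq a b := by
    have : 0 ≤ dist a b := dist_nonneg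
    exact this
  rw [dist_eq]
  exact ⟨le_of_sq_le_sq main.1 (norm_nonneg _), le_of_sq_le_sq main.2 (by positivity)⟩

/-- There are an infinite-dimensional uniformly convex Banach space and a metric space with four
points which embeds into it almost isometrically but not isometrically. -/
theorem result : ∃ (M E : Type) (_ : MetricSpace M) (_ : NormedAddCommGroup E)
    (_ : NormedSpace ℝ E), Separates M E := by
  refine ⟨Q4, XX, inferInstance, inferInstance, inferInstance,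
    ⟨inferInstance, infinite_dimensional, uniformlyConvex⟩, ?_, almost_embeds, not_embeds⟩
  have e : Q4 ≃ Bool × Bool :=
    ⟨fun a => (a.x, a.y), fun a => ⟨a.1, a.2⟩, fun _ => rfl, fun _ => rfl⟩
  rw [Nat.card_congr e, Nat.card_prod, Nat.card_eq_fintype_card, Fintype.card_bool]

end Pool.Agent.Results.MP_6d826c_an.FourPoints
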